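import Mathlib

/-!
# Paths and cycles as lists

`IsP G l`: the list `l` is a path of `G`. `HasC G u v a X`: there is a path of `G` from `u` to `v` with
exactly `a` inner vertices, none of them in `X`; if `u v` is an edge, this is a cycle of length `a + 2`.
-/

set_option autoImplicit false

namespace Pool.Agent.Helper87x.EC

open SimpleGraph

variable {V : Type*}

/-- the list is a path of the graph -/
def IsP (G : SimpleGraph V) (l : List V) : Prop := l.IsChain G.Adj ∧ l.Nodup

/-- a path from `u` to `v` with `a` inner vertices, none of them in `X` -/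
def HasC (G : SimpleGraph V) (u v : V) (a : ℕ) (X : Finset V) : Prop :=
  ∃ m : List V, m.length = a ∧ IsP G (u :: (m ++ [v])) ∧ ∀ x ∈ m, x ∉ X

theorem IsP.mono {G H : SimpleGraph V} (h : G ≤ H) {l : List V} (hl : IsP G l) : IsP H l :=
  ⟨hl.1.imp fun _ _ hab => h hab, hl.2⟩

theorem IsP.reverse {G : SimpleGraph V} {l : List V} (hl : IsP G l) : IsP G l.reverse := by
  refine ⟨?_, List.nodup_reverse.2 hl.2⟩
  rw [List.isChain_reverse]
  exact hl.1.imp fun _ _ hab => hab.symm

theorem HasC.mono {G H : SimpleGraph V} (h : G ≤ H) {u v : V} {a : ℕ} {X Y : Finset V}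
    (hXY : Y ⊆ X) (hc : HasC G u v a X) : HasC H u v a Y := by
  obtain ⟨m, h1, h2, h3⟩ := hc
  exact ⟨m, h1, h2.mono h, fun x hx hxY => h3 x hx (hXY hxY)⟩

theorem HasC.symm {G : SimpleGraph V} {u v : V} {a : ℕ} {X : Finset V} (hc : HasC G u v a X) :
    HasC G v u a X := by
  obtain ⟨m, h1, h2, h3⟩ := hc
  refine ⟨m.reverse, by simp [h1], ?_, fun x hx => h3 x (List.mem_reverse.1 hx)⟩
  have := h2.reverse
  simpa using this

/-- joining two paths at a vertex -/
theorem IsP.join {G : SimpleGraph V} {l₁ l₂ : List V} {c : V} (h₁ : IsP G (l₁ ++ [c]))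
    (h₂ : IsP G (c :: l₂)) (hd : ∀ x ∈ l₁, x ∉ l₂) : IsP G (l₁ ++ c :: l₂) := by
  refine ⟨List.isChain_split.2 ⟨h₁.1, h₂.1⟩, ?_⟩
  have n1 := h₁.2
  have n2 := h₂.2
  rw [List.nodup_append] at n1 ⊢
  refine ⟨n1.1, n2, fun x hx y hy => ?_⟩
  rintro rfl
  rcases List.mem_cons.1 hy with rfl | hy
  · exact n1.2.2 x hx x (by simp) rfl
  · exact hd x hx hy

theorem IsP.left {G : SimpleGraph V} {l₁ l₂ : List V} (h : IsP G (l₁ ++ l₂)) : IsP G l₁ :=
  ⟨h.1.left_of_append, (List.nodup_append.1 h.2).1⟩

theorem IsP.right {G : SimpleGraph V} {l₁ l₂ : List V} (h : IsP G (l₁ ++ l₂)) : IsP G l₂ :=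
  ⟨h.1.right_of_append, (List.nodup_append.1 h.2).2.1⟩

theorem IsP.split {G : SimpleGraph V} {l₁ l₂ : List V} {c : V} (h : IsP G (l₁ ++ c :: l₂)) :
    IsP G (l₁ ++ [c]) ∧ IsP G (c :: l₂) := by
  refine ⟨?_, h.right⟩
  have : l₁ ++ c :: l₂ = (l₁ ++ [c]) ++ l₂ := by simp
  rw [this] at h
  exact h.left

/-- a walk gives a list -/
theorem exists_list {G : SimpleGraph V} {u v : V} (p : G.Walk u v) (huv : u ≠ v) :
    ∃ m : List V, p.support = u :: (m ++ [v]) := by
  cases p with
  | nil => exact absurd rfl huv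
  | cons h q =>
    refine ⟨q.support.dropLast, ?_⟩
    rw [Walk.support_cons]
    congr 1
    have := List.dropLast_append_getLast (Walk.support_ne_nil q)
    rw [Walk.getLast_support] at this
    exact this.symm

theorem HasC.of_walk {G : SimpleGraph V} {u v : V} (p : G.Walk u v) (hp : p.IsPath) (huv : u ≠ v) :
    HasC G u v (p.length - 1) ∅ := by
  obtain ⟨m, hm⟩ := exists_list p huv
  refine ⟨m, ?_, ⟨?_, ?_⟩, by simp⟩
  · have := congrArg List.length hm
    rw [Walk.length_support] at this
    simp at this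
    omega
  · rw [← hm]; exact p.isChain_adj_support
  · rw [← hm]; exact hp.support_nodup

/-- a list gives a walk -/
theorem exists_walk {G : SimpleGraph V} (m : List V) : ∀ {u v : V},
    (u :: (m ++ [v])).IsChain G.Adj → ∃ p : G.Walk u v, p.support = u :: (m ++ [v]) := by
  induction m with
  | nil =>
    intro u v h
    have huv : G.Adj u v := by simpa using h
    exact ⟨Walk.cons huv Walk.nil, by simp⟩
  | cons x m ih =>
    intro u v h
    rw [List.cons_append, List.isChain_cons_cons] at h
    obtain ⟨q, hq⟩ := ih h.2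
    exact ⟨Walk.cons h.1 q, by rw [Walk.support_cons, hq]; simp⟩

/-- a cycle of `G` from a list -/
theorem exists_cycle {G : SimpleGraph V} {u v : V} {a : ℕ} {X : Finset V} (huv : G.Adj u v)
    (ha : 1 ≤ a) (hc : HasC G u v a X) :
    ∃ (w : V) (p : G.Walk w w), p.IsCycle ∧ p.length = a + 2 := by
  obtain ⟨m, hm, hp, -⟩ := hc
  obtain ⟨p, hs⟩ := exists_walk m hp.1
  have hpath : p.IsPath := by
    rw [Walk.isPath_def, hs]; exact hp.2
  have hlen : p.length = a + 1 := by
    have := congrArg List.length hs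
    rw [Walk.length_support] at this
    simp at this
    omega
  refine ⟨v, Walk.cons huv.symm p, ?_, by rw [Walk.length_cons, hlen]⟩
  rw [Walk.cons_isCycle_iff]
  refine ⟨hpath, fun he => ?_⟩
  cases p with
  | nil => simp at hlen
  | cons h q =>
    rename_i y
    rw [Walk.cons_isPath_iff] at hpath
    rw [Walk.edges_cons, List.mem_cons] at he
    rcases he with he | he
    · rw [Sym2.eq_iff] at he
      rcases he with ⟨h1, -⟩ | ⟨h1, -⟩
      · subst h1
        exact hpath.2 q.end_mem_support
      · subst h1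
        have hq := hpath.1
        rw [Walk.isPath_iff_eq_nil] at hq
        subst hq
        simp at hlen
        omega
    · exact hpath.2 (Walk.snd_mem_support_of_mem_edges q he)

theorem isContained_of_hasC {G : SimpleGraph V} {u v : V} {a : ℕ} {X : Finset V} (huv : G.Adj u v)
    (ha : 1 ≤ a) (hc : HasC G u v a X) : (cycleGraph (a + 2)).IsContained G := by
  rw [cycleGraph_isContained_iff (by omega)]
  exact exists_cycle huv ha hc

/-- a cycle gives a list -/
theorem hasC_of_isCycle {G : SimpleGraph V} {w : V} (p : G.Walk w w) (hp : p.IsCycle) :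
    ∃ u v : V, G.Adj u v ∧ HasC G u v (p.length - 2) ∅ := by
  cases p with
  | nil => exact absurd hp (by simp)
  | cons h q =>
    rename_i y
    rw [Walk.cons_isCycle_iff] at hp
    have hne : y ≠ w := h.ne.symm
    refine ⟨y, w, h.symm, ?_⟩
    have := HasC.of_walk q hp.1 hne
    rwa [Walk.length_cons]

end Pool.Agent.Helper87x.EC
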