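import Pool.Agent.Helper87x.EC.Fan

/-!
# A bipartite subgraph with half of the edges
-/

set_option autoImplicit false

namespace Pool.Agent.Helper87x.EC

open SimpleGraph Finset

variable {V : Type*}

theorem half_count [Fintype V] [DecidableEq V] {u v : V} (huv : u ≠ v) :
    2 * (univ.filter fun f : V → Bool => f u ≠ f v).card = Fintype.card (V → Bool) := by
  classical
  have h1 : (univ.filter fun f : V → Bool => f u ≠ f v).card =
      (univ.filter fun f : V → Bool => ¬ f u ≠ f v).card := by
    refine card_nbij' (fun f => Function.update f u (!f u)) (fun f => Function.update f u (!f u))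
      ?_ ?_ ?_ ?_
    · intro f hf
      simp only [coe_filter, mem_univ, true_and, Set.mem_setOf_eq, not_not] at hf ⊢
      rw [Function.update_self, Function.update_of_ne huv.symm]
      revert hf
      cases f u <;> cases f v <;> simp
    · intro f hf
      simp only [coe_filter, mem_univ, true_and, Set.mem_setOf_eq, not_not] at hf ⊢
      rw [Function.update_self, Function.update_of_ne huv.symm]
      revert hf
      cases f u <;> cases f v <;> simp
    · intro f _
      simp
    · intro f _
      simp
  have h2 := card_filter_add_card_filter_not (s := (univ : Finset (V → Bool)))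
    (fun f : V → Bool => f u ≠ f v)
  rw [card_univ] at h2
  omega

/-- the edges across -/
def cross (G : SimpleGraph V) (f : V → Bool) : SimpleGraph V where
  Adj u v := G.Adj u v ∧ f u ≠ f v
  symm := ⟨fun _ _ h => ⟨h.1.symm, h.2.symm⟩⟩
  loopless := ⟨fun _ h => h.2 rfl⟩

theorem exists_bip [Fintype V] (G : SimpleGraph V) :
    ∃ G₀ ≤ G, ∃ f : V → Bool, (∀ u v, G₀.Adj u v → f u ≠ f v) ∧
      (darts G).card ≤ 2 * (darts G₀).card := by
  classical
  by_contra hcon
  push Not at hcon
  have hsmall : ∀ f : V → Bool, 2 * (darts (cross G f)).card + 1 ≤ (darts G).card := fun f =>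
    hcon (cross G f) (fun _ _ h => h.1) f (fun _ _ h => h.2)
  have hcard : ∀ f : V → Bool, (darts (cross G f)).card =
      ∑ p ∈ darts G, if f p.1 ≠ f p.2 then 1 else 0 := by
    intro f
    rw [← card_filter]
    congr 1
    ext p
    rw [mem_filter, mem_darts, mem_darts]
    rfl
  have hsum : 2 * ∑ f : V → Bool, (darts (cross G f)).card =
      (darts G).card * Fintype.card (V → Bool) := by
    rw [sum_congr rfl fun f _ => hcard f, sum_comm, mul_sum, ← smul_eq_mul (a := (darts G).card),
      ← sum_const]
    refine sum_congr rfl fun p hp => ?_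
    rw [mem_darts] at hp
    rw [← card_filter]
    exact half_count hp.ne
  have h2 : ∑ f : V → Bool, (2 * (darts (cross G f)).card + 1) ≤ ∑ _f : V → Bool, (darts G).card :=
    sum_le_sum fun f _ => hsmall f
  rw [sum_add_distrib, ← mul_sum, hsum, sum_const, sum_const, card_univ, smul_eq_mul, smul_eq_mul,
    mul_one, mul_comm] at h2
  have h3 : 0 < Fintype.card (V → Bool) := Fintype.card_pos
  omega

theorem parity {G : SimpleGraph V} {f : V → Bool} (hf : ∀ u v, G.Adj u v → f u ≠ f v) :
    ∀ (m : List V) (u v : V), (u :: (m ++ [v])).IsChain G.Adj →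
      (f u = f v ↔ m.length % 2 = 1) := by
  intro m
  induction m with
  | nil =>
    intro u v h
    have huv : G.Adj u v := by simpa using h
    simp [hf u v huv]
  | cons x m ih =>
    intro u v h
    rw [List.cons_append, List.isChain_cons_cons] at h
    have h1 := hf u x h.1
    have h2 := ih x v h.2
    rw [List.length_cons]
    have h3 : (f u = f v) ↔ ¬ (f x = f v) := by
      revert h1
      cases f u <;> cases f x <;> cases f v <;> simp
    rw [h3, h2]
    omega

theorem even_of_bip {G : SimpleGraph V} {f : V → Bool} (hf : ∀ u v, G.Adj u v → f u ≠ f v)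
    {u v : V} (huv : G.Adj u v) {a : ℕ} {X : Finset V} (h : HasC G u v a X) : 2 ∣ a := by
  obtain ⟨m, rfl, hp, -⟩ := h
  have h1 := parity hf m u v hp.1
  have h2 := hf u v huv
  rw [Nat.dvd_iff_mod_eq_zero]
  by_contra h3
  exact h2 (h1.2 (by omega))

end Pool.Agent.Helper87x.EC
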