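import Pool.Agent.Helper87x.EC.Basic

/-!
# Cleaning

Either a graph contains a nonempty subgraph in which every edge is, for every member `A` of `T`, in a cycle with a
length from `A` which avoids any given small set of vertices, or there is a large subgraph without cycles with
lengths from some member of `T`.
-/

set_option autoImplicit false

namespace Pool.Agent.Helper87x.EC

open SimpleGraph

variable {V : Type*}

/-- every edge is in many cycles with `a + 2` vertices, `a ∈ A`, for every `A ∈ T` -/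
def Robust (H : SimpleGraph V) (T : Finset (Finset ℕ)) (M : ℕ) : Prop :=
  ∀ u v, H.Adj u v → ∀ A ∈ T, ∀ X : Finset V, X.card ≤ M → ∃ a ∈ A, HasC H u v a X

theorem elim [Finite V] [DecidableEq V] (T : Finset (Finset ℕ)) (hT : T.Nonempty) (M : ℕ)
    (G : SimpleGraph V) (hG : ∀ H ≤ G, H ≠ ⊥ → ¬ Robust H T M) :
    ∃ (A : Sym2 V → Finset ℕ) (X : Sym2 V → Finset V), (∀ e, A e ∈ T) ∧ (∀ e, (X e).card ≤ M) ∧
      ∀ K ≤ G, K ≠ ⊥ → ∃ u v, K.Adj u v ∧ ∀ a ∈ A s(u, v), ¬ HasC K u v a (X s(u, v)) := by
  classical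
  induction G using WellFoundedLT.induction with
  | ind G ih =>
    by_cases hbot : G = ⊥
    · obtain ⟨A0, hA0⟩ := hT
      refine ⟨fun _ => A0, fun _ => ∅, fun _ => hA0, fun _ => by simp, fun K hK hne => ?_⟩
      exact absurd (le_bot_iff.1 (hK.trans hbot.le)) hne
    · have h1 := hG G le_rfl hbot
      unfold Robust at h1
      push Not at h1
      obtain ⟨u, v, huv, A1, hA1, X1, hX1, hno⟩ := h1
      have hlt : G.deleteEdges {s(u, v)} < G := by
        refine lt_of_le_of_ne (deleteEdges_le _) fun heq => ?_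
        have : (G.deleteEdges {s(u, v)}).Adj u v := by rw [heq]; exact huv
        rw [deleteEdges_adj] at this
        exact this.2 rfl
      obtain ⟨A, X, hA, hX, hK⟩ := ih _ hlt (fun H hH hne => hG H (hH.trans hlt.le) hne)
      refine ⟨Function.update A s(u, v) A1, Function.update X s(u, v) X1, fun e => ?_, fun e => ?_,
        fun K hKG hne => ?_⟩
      · by_cases he : e = s(u, v)
        · rw [he, Function.update_self]; exact hA1
        · rw [Function.update_of_ne he]; exact hA e
      · by_cases he : e = s(u, v)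
        · rw [he, Function.update_self]; exact hX1
        · rw [Function.update_of_ne he]; exact hX e
      · by_cases hKuv : K.Adj u v
        · refine ⟨u, v, hKuv, fun a ha hc => ?_⟩
          rw [Function.update_self] at ha hc
          exact hno a ha (hc.mono hKG (Finset.Subset.refl _))
        · have hK' : K ≤ G.deleteEdges {s(u, v)} := by
            intro x y hxy
            rw [deleteEdges_adj]
            refine ⟨hKG hxy, fun hmem => ?_⟩
            rw [Set.mem_singleton_iff, Sym2.eq_iff] at hmem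
            rcases hmem with ⟨rfl, rfl⟩ | ⟨rfl, rfl⟩
            · exact hKuv hxy
            · exact hKuv hxy.symm
          obtain ⟨x, y, hxy, hno'⟩ := hK K hK' hne
          have hne' : s(x, y) ≠ s(u, v) := by
            intro hmem
            rw [Sym2.eq_iff] at hmem
            rcases hmem with ⟨rfl, rfl⟩ | ⟨rfl, rfl⟩
            · exact hKuv hxy
            · exact hKuv hxy.symm
          refine ⟨x, y, hxy, fun a ha hc => ?_⟩
          rw [Function.update_of_ne hne'] at ha hc
          exact hno' a ha hc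

/-- the graph of a closed list -/
def cyc (u v : V) (L : List V) (huv : u ≠ v) (hL : L.Nodup) : SimpleGraph V where
  Adj x y := ([x, y] <:+: L ∨ [y, x] <:+: L) ∨ ((x = u ∧ y = v) ∨ (x = v ∧ y = u))
  symm := ⟨by
    rintro x y (h | h)
    · exact Or.inl h.symm
    · refine Or.inr ?_
      rcases h with ⟨h1, h2⟩ | ⟨h1, h2⟩
      · exact Or.inr ⟨h2, h1⟩
      · exact Or.inl ⟨h2, h1⟩⟩
  loopless := ⟨by
    rintro x ((h | h) | (h | h))
    · have := hL.sublist h.sublist
      simp at this
    · have := hL.sublist h.sublist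
      simp at this
    · exact huv (h.1.symm.trans h.2)
    · exact huv (h.2.symm.trans h.1)⟩

theorem cyc_hasC {u v : V} {m : List V} (huv : u ≠ v) (hL : (u :: (m ++ [v])).Nodup) {x y : V}
    (hxy : (cyc u v (u :: (m ++ [v])) huv hL).Adj x y) :
    ∃ m' : List V, m'.length = m.length ∧ IsP (cyc u v (u :: (m ++ [v])) huv hL) (x :: (m' ++ [y])) ∧
      ∀ z ∈ m', z ∈ u :: (m ++ [v]) := by
  set L := u :: (m ++ [v]) with hLdef
  set C := cyc u v L huv hL with hC
  have hchain : L.IsChain C.Adj :=
    (List.isChain_isInfix L).imp fun a b h => Or.inl (Or.inl h)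
  have hvu : C.Adj v u := Or.inr (Or.inr ⟨rfl, rfl⟩)
  have key : ∀ x y : V, [x, y] <:+: L → ∃ m' : List V, m'.length = m.length ∧
      IsP C (y :: (m' ++ [x])) ∧ ∀ z ∈ m', z ∈ L := by
    intro x y hinf
    obtain ⟨l1, l2, hl⟩ := hinf
    have hl' : L = (l1 ++ [x]) ++ (y :: l2) := by rw [← hl]; simp
    refine ⟨l2 ++ l1, ?_, ⟨?_, ?_⟩, ?_⟩
    · have := congrArg List.length hl'
      rw [hLdef] at this
      simp at this ⊢
      omega
    · have e : y :: (l2 ++ l1 ++ [x]) = (y :: l2) ++ (l1 ++ [x]) := by simp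
      rw [e, List.isChain_append]
      rw [hl'] at hchain
      refine ⟨hchain.right_of_append, hchain.left_of_append, fun a ha b hb => ?_⟩
      have e1 : a = v := by
        have h1 : L.getLast? = some v := by
          rw [hLdef, ← List.cons_append, List.getLast?_append]; simp
        rw [Option.mem_def] at hb
        rw [Option.mem_def] at ha
        rw [hl', List.getLast?_append, ha] at h1
        simpa using h1
      have e2 : b = u := by
        have h1 : L.head? = some u := by rw [hLdef]; simp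
        rw [Option.mem_def] at hb
        rw [hl', List.head?_append, hb] at h1
        simpa using h1
      rw [e1, e2]; exact hvu
    · have hp : (y :: (l2 ++ l1 ++ [x])).Perm L := by
        rw [hl']
        have e : y :: (l2 ++ l1 ++ [x]) = (y :: l2) ++ (l1 ++ [x]) := by simp
        rw [e]
        exact List.perm_append_comm
      exact hp.symm.nodup hL
    · intro z hz
      rw [hl']
      rw [List.mem_append] at hz
      simp only [List.mem_append, List.mem_cons]
      tauto
  have base : ∃ m' : List V, m'.length = m.length ∧ IsP C (u :: (m' ++ [v])) ∧ ∀ z ∈ m', z ∈ L :=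
    ⟨m, rfl, ⟨hchain, hL⟩, fun z hz => by rw [hLdef]; simp [hz]⟩
  have rev : ∀ x y : V, (∃ m' : List V, m'.length = m.length ∧ IsP C (x :: (m' ++ [y])) ∧
      ∀ z ∈ m', z ∈ L) → ∃ m' : List V, m'.length = m.length ∧ IsP C (y :: (m' ++ [x])) ∧
      ∀ z ∈ m', z ∈ L := by
    rintro x y ⟨m', h1, h2, h3⟩
    refine ⟨m'.reverse, by simp [h1], ?_, fun z hz => h3 z (List.mem_reverse.1 hz)⟩
    have := h2.reverse
    simpa using this
  rcases hxy with (h | h) | (⟨rfl, rfl⟩ | ⟨rfl, rfl⟩)
  · exact rev _ _ (key x y h)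
  · exact key y x h
  · exact base
  · exact rev _ _ base

/-- the ordered pairs of adjacent vertices -/
noncomputable def darts [Fintype V] (G : SimpleGraph V) : Finset (V × V) := by
  classical exact Finset.univ.filter fun p => G.Adj p.1 p.2

theorem mem_darts [Fintype V] {G : SimpleGraph V} {p : V × V} : p ∈ darts G ↔ G.Adj p.1 p.2 := by
  classical
  unfold darts
  simp

/-- the edges kept by the colouring `f` -/
def kept (G : SimpleGraph V) (A : Sym2 V → Finset ℕ) (X : Sym2 V → Finset V) {q : ℕ}
    (f : V → Fin (q + 1)) (A0 : Finset ℕ) : SimpleGraph V where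
  Adj u v := G.Adj u v ∧ (f u = 0 ∧ f v = 0) ∧ A s(u, v) = A0 ∧
    ∀ x ∈ X s(u, v), x ≠ u → x ≠ v → f x ≠ 0
  symm := ⟨by
    rintro u v ⟨h1, ⟨h2, h3⟩, h4, h5⟩
    refine ⟨h1.symm, ⟨h3, h2⟩, by rw [Sym2.eq_swap]; exact h4, ?_⟩
    intro x hx hxv hxu
    rw [Sym2.eq_swap] at hx
    exact h5 x hx hxu hxv⟩
  loopless := ⟨fun u h => G.loopless.irrefl u h.1⟩

theorem kept_le {G : SimpleGraph V} {A : Sym2 V → Finset ℕ} {X : Sym2 V → Finset V} {q : ℕ}
    {f : V → Fin (q + 1)} {A0 : Finset ℕ} : kept G A X f A0 ≤ G := fun _ _ h => h.1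

theorem adj_of_pair {G : SimpleGraph V} {l : List V} {x y : V} (hl : l.IsChain G.Adj)
    (h : [x, y] <:+: l) : G.Adj x y := by
  obtain ⟨s, t, rfl⟩ := h
  have h1 := hl.left_of_append.right_of_append
  simpa using h1

theorem kept_free {G : SimpleGraph V} {A : Sym2 V → Finset ℕ} {X : Sym2 V → Finset V} {q : ℕ}
    {f : V → Fin (q + 1)} {A0 : Finset ℕ}
    (hK : ∀ K ≤ G, K ≠ ⊥ → ∃ u v, K.Adj u v ∧ ∀ a ∈ A s(u, v), ¬ HasC K u v a (X s(u, v)))
    {u v : V} (huv : (kept G A X f A0).Adj u v) {a : ℕ} (ha : a ∈ A0) :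
    ¬ HasC (kept G A X f A0) u v a ∅ := by
  rintro ⟨m, hm, hp, -⟩
  set C := cyc u v (u :: (m ++ [v])) huv.ne hp.2 with hC
  have hCK : C ≤ kept G A X f A0 := by
    rintro x y ((h | h) | (⟨rfl, rfl⟩ | ⟨rfl, rfl⟩))
    · exact adj_of_pair hp.1 h
    · exact (adj_of_pair hp.1 h).symm
    · exact huv
    · exact huv.symm
  have hne : C ≠ ⊥ := by
    intro h
    have : C.Adj u v := Or.inr (Or.inl ⟨rfl, rfl⟩)
    rw [h] at this
    exact this
  obtain ⟨x, y, hxy, hno⟩ := hK C (hCK.trans kept_le) hne
  have hxyK := hCK hxy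
  obtain ⟨m', hm', hp', hin⟩ := cyc_hasC huv.ne hp.2 hxy
  refine hno a (by rw [hxyK.2.2.1]; exact ha) ⟨m', by rw [hm', hm], hp', fun z hz hzX => ?_⟩
  -- all vertices of the cycle have colour `0`
  have hcol : ∀ z ∈ u :: (m ++ [v]), f z = 0 := by
    intro z hz
    rcases List.mem_cons.1 hz with rfl | hz
    · exact huv.2.1.1
    · -- z has a predecessor
      obtain ⟨l1, l2, hl⟩ := List.append_of_mem hz
      have hch := hp.1
      rw [hl] at hch
      have : (u :: (l1 ++ z :: l2)) = (u :: l1) ++ z :: l2 := by simp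
      rw [this, List.isChain_append] at hch
      obtain ⟨w, hw⟩ : ∃ w, (u :: l1).getLast? = some w := by
        cases h : (u :: l1).getLast? with
        | none => simp at h
        | some w => exact ⟨w, rfl⟩
      have := hch.2.2 w (by rw [hw]; simp) z (by simp)
      exact this.2.1.2
  have hnd := hp'.2
  have hzx : z ≠ x := by
    rintro rfl
    rw [List.nodup_cons] at hnd
    exact hnd.1 (by simp [hz])
  have hzy : z ≠ y := by
    rintro rfl
    rw [List.nodup_cons, List.nodup_append] at hnd
    exact hnd.2.2.2 z hz z (by simp) rfl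
  exact hxyK.2.2.2 z hzX hzx hzy (hcol z (hin z hz))

end Pool.Agent.Helper87x.EC
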