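import Pool.Agent.Helper87x.EC.Clean

/-!
# Cleaning: the count
-/

set_option autoImplicit false

namespace Pool.Agent.Helper87x.EC

open SimpleGraph Finset

variable {V : Type*}

theorem good_count [Fintype V] [DecidableEq V] {u v : V} (huv : u ≠ v) (X : Finset V) (M q : ℕ)
    (hX : X.card ≤ M) (hq : 2 * M ≤ q + 1) :
    (q + 1) ^ Fintype.card V ≤ 2 * (q + 1) ^ 2 *
      (univ.filter fun f : V → Fin (q + 1) => (f u = 0 ∧ f v = 0) ∧
        ∀ x ∈ X, x ≠ u → x ≠ v → f x ≠ 0).card := by
  classical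
  set t : V → Finset (Fin (q + 1)) := fun x =>
    if x = u ∨ x = v then {0} else if x ∈ X then univ.erase 0 else univ with ht
  have hset : (univ.filter fun f : V → Fin (q + 1) => (f u = 0 ∧ f v = 0) ∧
        ∀ x ∈ X, x ≠ u → x ≠ v → f x ≠ 0) = Fintype.piFinset t := by
    ext f
    rw [mem_filter, Fintype.mem_piFinset]
    constructor
    · rintro ⟨-, ⟨h1, h2⟩, h3⟩ x
      rw [ht]
      simp only
      split_ifs with hx hx'
      · rcases hx with rfl | rfl
        · simp [h1]
        · simp [h2]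
      · push Not at hx
        simp [h3 x hx' hx.1 hx.2]
      · simp
    · intro h
      refine ⟨mem_univ _, ⟨?_, ?_⟩, fun x hx hxu hxv => ?_⟩
      · have := h u
        rw [ht] at this
        simpa using this
      · have := h v
        rw [ht] at this
        simpa using this
      · have := h x
        rw [ht] at this
        simp only [hxu, hxv, or_self, if_false, hx, if_true] at this
        exact (mem_erase.1 this).1
  rw [hset, Fintype.card_piFinset]
  set Q : ℝ := (q : ℝ) + 1 with hQ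
  have hQ1 : (1 : ℝ) ≤ Q := by rw [hQ]; have : (0 : ℝ) ≤ q := Nat.cast_nonneg q; linarith
  have hQ0 : 0 < Q := by linarith
  set g : V → ℝ := fun x => if x = u ∨ x = v then 1 / Q else if x ∈ X then 1 - 1 / Q else 1 with hg
  have hcard : ∀ x, ((t x).card : ℝ) = Q * g x := by
    intro x
    rw [ht, hg]
    simp only
    split_ifs with h1 h2
    · rw [card_singleton]; field_simp; simp
    · rw [card_erase_of_mem (mem_univ _), card_univ, Fintype.card_fin, mul_sub, mul_one,
        mul_one_div_cancel hQ0.ne', hQ]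
      simp
    · rw [card_univ, Fintype.card_fin, hQ]; push_cast; ring
  have h1 : ((∏ x, (t x).card : ℕ) : ℝ) = Q ^ Fintype.card V * ∏ x, g x := by
    push_cast
    rw [prod_congr rfl fun x _ => hcard x, prod_mul_distrib, prod_const, card_univ]
  have hc0 : (0 : ℝ) ≤ 1 - 1 / Q := by
    rw [sub_nonneg, div_le_one hQ0]; exact hQ1
  have hc1 : 1 - 1 / Q ≤ 1 := by
    have : 0 < 1 / Q := by positivity
    linarith
  have h2 : ∏ x, g x = (∏ x ∈ ({u, v} : Finset V), g x) * ∏ x ∈ ({u, v} : Finset V)ᶜ, g x :=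
    (prod_mul_prod_compl _ _).symm
  have h3 : ∏ x ∈ ({u, v} : Finset V), g x = 1 / Q ^ 2 := by
    rw [prod_pair huv, hg]
    simp only [true_or, or_true, if_true]
    field_simp
  have h4 : ∏ x ∈ ({u, v} : Finset V)ᶜ, g x = (1 - 1 / Q) ^ ((({u, v} : Finset V)ᶜ).filter
      fun x => x ∈ X).card := by
    have : ∀ x ∈ ({u, v} : Finset V)ᶜ, g x = if x ∈ X then 1 - 1 / Q else 1 := by
      intro x hx
      rw [mem_compl, mem_insert, mem_singleton] at hx
      rw [hg]
      simp only [hx, if_false]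
    rw [prod_congr rfl this, prod_ite, prod_const, prod_const_one, mul_one]
  have h5 : ((({u, v} : Finset V)ᶜ).filter fun x => x ∈ X).card ≤ M := by
    refine le_trans (card_le_card fun x hx => ?_) hX
    exact (mem_filter.1 hx).2
  have h6 : (1 : ℝ) / 2 ≤ (1 - 1 / Q) ^ ((({u, v} : Finset V)ᶜ).filter fun x => x ∈ X).card := by
    calc (1 : ℝ) / 2 ≤ 1 + (M : ℝ) * (-(1 / Q)) := by
          have hM : 2 * (M : ℝ) ≤ Q := by
            rw [hQ]; exact_mod_cast hq
          have : (M : ℝ) * (1 / Q) ≤ 1 / 2 := by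
            rw [mul_one_div, div_le_div_iff₀ hQ0 (by norm_num)]
            linarith
          linarith
      _ ≤ (1 + (-(1 / Q))) ^ M := one_add_mul_le_pow (by
          have : 1 / Q ≤ 1 := by rw [div_le_one hQ0]; exact hQ1
          linarith) M
      _ = (1 - 1 / Q) ^ M := by ring
      _ ≤ _ := pow_le_pow_of_le_one hc0 hc1 h5
  have h7 : (((q + 1) ^ Fintype.card V : ℕ) : ℝ) ≤ ((2 * (q + 1) ^ 2 * ∏ x, (t x).card : ℕ) : ℝ) := by
    rw [Nat.cast_mul, h1, h2, h3, h4]
    push_cast
    rw [← hQ]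
    have hpow : 0 < Q ^ Fintype.card V := by positivity
    have e : 2 * Q ^ 2 * (Q ^ Fintype.card V * (1 / Q ^ 2 * (1 - 1 / Q) ^
        ((({u, v} : Finset V)ᶜ).filter fun x => x ∈ X).card)) = Q ^ Fintype.card V * (2 *
        (1 - 1 / Q) ^ ((({u, v} : Finset V)ᶜ).filter fun x => x ∈ X).card) := by
      field_simp
    rw [e]
    have := mul_le_mul_of_nonneg_left (show (1 : ℝ) ≤ 2 * (1 - 1 / Q) ^
        ((({u, v} : Finset V)ᶜ).filter fun x => x ∈ X).card by linarith) hpow.le
    linarith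
  exact_mod_cast h7

/-- **Cleaning.** -/
theorem clean [Fintype V] (T : Finset (Finset ℕ)) (hT : T.Nonempty) (M : ℕ)
    (G : SimpleGraph V) (hG : ∀ H ≤ G, H ≠ ⊥ → ¬ Robust H T M) :
    ∃ A ∈ T, ∃ G' ≤ G, (∀ u v, G'.Adj u v → ∀ a ∈ A, ¬ HasC G' u v a ∅) ∧
      (darts G).card ≤ 2 * (2 * M + 1) ^ 2 * T.card * (darts G').card := by
  classical
  obtain ⟨A, X, hA, hX, hK⟩ := elim T hT M G hG
  set q : ℕ := 2 * M with hq
  by_contra hcon
  push Not at hcon
  -- every kept graph is small
  have hsmall : ∀ (f : V → Fin (q + 1)) (A0 : Finset ℕ), A0 ∈ T →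
      2 * (q + 1) ^ 2 * T.card * (darts (kept G A X f A0)).card + 1 ≤ (darts G).card := by
    intro f A0 hA0
    exact hcon A0 hA0 _ kept_le fun u v huv a ha => kept_free hK huv ha
  have hTc : 0 < T.card := card_pos.2 hT
  -- double counting
  have hsum : (darts G).card * (q + 1) ^ Fintype.card V ≤
      2 * (q + 1) ^ 2 * ∑ f : V → Fin (q + 1), ∑ A0 ∈ T, (darts (kept G A X f A0)).card := by
    have h1 : ∀ (f : V → Fin (q + 1)) (A0 : Finset ℕ), (darts (kept G A X f A0)).card =
        ∑ p ∈ darts G, if p ∈ darts (kept G A X f A0) then 1 else 0 := by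
      intro f A0
      rw [sum_ite_mem, sum_const, smul_eq_mul, mul_one, inter_eq_right.2]
      intro p hp
      rw [mem_darts] at hp ⊢
      exact kept_le hp
    have h2 : ∑ f : V → Fin (q + 1), ∑ A0 ∈ T, (darts (kept G A X f A0)).card =
        ∑ p ∈ darts G, ∑ f : V → Fin (q + 1), ∑ A0 ∈ T,
          if p ∈ darts (kept G A X f A0) then 1 else 0 := by
      calc ∑ f : V → Fin (q + 1), ∑ A0 ∈ T, (darts (kept G A X f A0)).card =
          ∑ f : V → Fin (q + 1), ∑ A0 ∈ T, ∑ p ∈ darts G,
            (if p ∈ darts (kept G A X f A0) then 1 else 0) :=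
            sum_congr rfl fun f _ => sum_congr rfl fun A0 _ => h1 f A0
        _ = ∑ f : V → Fin (q + 1), ∑ p ∈ darts G, ∑ A0 ∈ T,
            (if p ∈ darts (kept G A X f A0) then 1 else 0) :=
            sum_congr rfl fun f _ => sum_comm
        _ = _ := sum_comm
    rw [h2, mul_sum]
    have h3 : ∀ p ∈ darts G, (q + 1) ^ Fintype.card V ≤ 2 * (q + 1) ^ 2 *
        ∑ f : V → Fin (q + 1), ∑ A0 ∈ T, if p ∈ darts (kept G A X f A0) then 1 else 0 := by
      intro p hp
      rw [mem_darts] at hp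
      refine (good_count hp.ne (X s(p.1, p.2)) M q (hX _) (by omega)).trans ?_
      refine Nat.mul_le_mul_left _ ?_
      rw [card_filter]
      refine sum_le_sum fun f _ => ?_
      have h4 : (if p ∈ darts (kept G A X f (A s(p.1, p.2))) then 1 else 0) ≤
          ∑ A0 ∈ T, if p ∈ darts (kept G A X f A0) then 1 else 0 :=
        single_le_sum (f := fun A0 => if p ∈ darts (kept G A X f A0) then 1 else 0)
          (fun _ _ => Nat.zero_le _) (hA _)
      refine le_trans ?_ h4
      split_ifs with h5 h6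
      · exact le_rfl
      · refine absurd (mem_darts.2 ?_) h6
        exact (⟨hp, h5.1, rfl, h5.2⟩ : G.Adj p.1 p.2 ∧ (f p.1 = 0 ∧ f p.2 = 0) ∧
          A s(p.1, p.2) = A s(p.1, p.2) ∧ ∀ x ∈ X s(p.1, p.2), x ≠ p.1 → x ≠ p.2 → f x ≠ 0)
      · exact Nat.zero_le _
      · exact le_rfl
    calc (darts G).card * (q + 1) ^ Fintype.card V = ∑ _p ∈ darts G, (q + 1) ^ Fintype.card V := by
          rw [sum_const, smul_eq_mul]
      _ ≤ _ := sum_le_sum h3
  have hsum2 : ∑ f : V → Fin (q + 1), ∑ A0 ∈ T,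
      (2 * (q + 1) ^ 2 * T.card * (darts (kept G A X f A0)).card + 1) ≤
      ∑ _f : V → Fin (q + 1), ∑ _A0 ∈ T, (darts G).card :=
    sum_le_sum fun f _ => sum_le_sum fun A0 hA0 => hsmall f A0 hA0
  simp only [sum_add_distrib, ← mul_sum, sum_const, smul_eq_mul, card_univ, Fintype.card_fun,
    Fintype.card_fin, mul_one] at hsum2
  have hpow : 0 < (q + 1) ^ Fintype.card V := by positivity
  have e2 : 0 < (q + 1) ^ Fintype.card V * T.card := Nat.mul_pos hpow hTc
  have e1 := Nat.mul_le_mul_left T.card hsum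
  generalize (∑ f : V → Fin (q + 1), ∑ A0 ∈ T, (darts (kept G A X f A0)).card) = S at *
  generalize (q + 1) ^ Fintype.card V = P at *
  generalize (darts G).card = D at *
  generalize T.card = Tn at *
  generalize 2 * (q + 1) ^ 2 = B at *
  nlinarith

end Pool.Agent.Helper87x.EC
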