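import Pool.Agent.Helper87x.EC.Glue

/-!
# Fans of short cycles around a vertex

If `g` does not divide `2` and all the short cycles have a length congruent to `2` modulo `g`, then two fans of
short cycles around a vertex which separate never meet again.
-/

set_option autoImplicit false

namespace Pool.Agent.Helper87x.EC

open SimpleGraph

variable {V : Type*}

theorem mem_of_split {a b : V} {l₁ l₂ l₃ l₄ : List V} (h : l₁ ++ a :: l₂ = l₃ ++ b :: l₄)
    (ha : a ∉ l₃) : b ∈ l₁ ++ [a] := by
  rw [List.append_eq_append_iff] at h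
  rcases h with ⟨c, h1, h2⟩ | ⟨c, h1, h2⟩
  · cases c with
    | nil =>
      simp at h2
      simp [h2.1]
    | cons x c =>
      simp at h2
      exact absurd (by rw [h1, h2.1]; simp) ha
  · cases c with
    | nil =>
      simp at h2
      simp [h2.1]
    | cons x c =>
      simp at h2
      rw [h1, h2.1]; simp

theorem IsP.cons {G : SimpleGraph V} {c w : V} {l : List V} (h : IsP G (w :: l))
    (hcw : G.Adj c w) (hc : c ∉ w :: l) : IsP G (c :: w :: l) :=
  ⟨by rw [List.isChain_cons_cons]; exact ⟨hcw, h.1⟩, List.nodup_cons.2 ⟨hc, h.2⟩⟩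

/-- two paths from `w` to `y` form a cycle -/
theorem two_paths {G : SimpleGraph V} {w y : V} {s s' : List V} (h : IsP G (w :: (s ++ [y])))
    (h' : IsP G (w :: (s' ++ [y]))) (hd : ∀ x ∈ s, x ∉ s') :
    ∃ z, G.Adj z w ∧ HasC G z w (s.length + s'.length) ∅ := by
  have h1 : IsP G (s ++ [y]) := IsP.right (l₁ := [w]) (by simpa using h)
  have h2 : IsP G (y :: (s'.reverse ++ [w])) := by
    have := h'.reverse
    simpa using this
  have hws : w ∉ s := fun hw => by
    have := h.2
    rw [List.nodup_cons] at this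
    exact this.1 (by simp [hw])
  have h3 : IsP G (s ++ y :: (s'.reverse ++ [w])) := by
    refine IsP.join h1 h2 fun x hx hx' => ?_
    rw [List.mem_append, List.mem_reverse, List.mem_singleton] at hx'
    rcases hx' with hx' | rfl
    · exact hd x hx hx'
    · exact hws hx
  cases s with
  | nil =>
    refine ⟨y, ?_, s'.reverse, by simp, by simpa using h3, by simp⟩
    have := h.1
    simp at this
    exact this.symm
  | cons z s =>
    refine ⟨z, ?_, s ++ y :: s'.reverse, by simp; omega, ?_, by simp⟩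
    · have := h.1
      rw [List.cons_append, List.isChain_cons_cons] at this
      exact this.1.symm
    · have e : z :: (s ++ y :: s'.reverse ++ [w]) = z :: s ++ y :: (s'.reverse ++ [w]) := by simp
      rw [e]; exact h3

section

variable {G : SimpleGraph V} {g N : ℕ}

theorem core (hD : ∀ u v, G.Adj u v → ∀ a, 1 ≤ a → a ≤ N → HasC G u v a ∅ → g ∣ a)
    (hg : ¬ g ∣ 2) {c w y z : V} {s s' : List V} (h : IsP G (w :: (s ++ [y])))
    (h' : IsP G (w :: (s' ++ [y]))) (hd : ∀ x ∈ s, x ∉ s') (hc : c ∉ w :: (s ++ [y]))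
    (hc' : c ∉ w :: (s' ++ [y])) (hcw : G.Adj c w) (hz : z ∈ s') (hcz : G.Adj c z)
    (hN : s.length + s'.length + 1 ≤ N) : False := by
  have hs' : 0 < s'.length := List.length_pos_of_mem hz
  -- the cycle through `w` and `y`
  have d0 : g ∣ s.length + s'.length := by
    obtain ⟨x, hx, hC⟩ := two_paths h h' hd
    exact hD x w hx _ (by omega) (by omega) hC
  obtain ⟨s₁, s₂, rfl⟩ := List.append_of_mem hz
  -- the cycle through `c`, `w` and `z`
  have e1 : w :: (s₁ ++ z :: s₂ ++ [y]) = (w :: s₁) ++ z :: (s₂ ++ [y]) := by simp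
  rw [e1] at h'
  have p1 := h'.split.1
  have p2 := h'.split.2
  have d1 : g ∣ 1 + s₁.length := by
    refine hD c z hcz _ (by omega) (by simp at hN; omega) ⟨w :: s₁, by simp; omega, ?_, by simp⟩
    refine IsP.cons (by simpa using p1) hcw ?_
    intro hmem
    apply hc'
    rw [e1]
    simp at hmem ⊢
    tauto
  -- the cycle through `c`, `w`, `y` and `z`
  have d2 : g ∣ s.length + s₂.length + 2 := by
    refine hD c z hcz _ (by omega) (by simp at hN; omega)
      ⟨w :: (s ++ y :: s₂.reverse), by simp; omega, ?_, by simp⟩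
    have p3 : IsP G (y :: (s₂.reverse ++ [z])) := by
      have := p2.reverse
      simpa using this
    have hws : w ∉ s₂ ∧ w ≠ z := by
      have hn := h'.2
      rw [List.cons_append, List.nodup_cons] at hn
      constructor
      · intro hw
        exact hn.1 (by simp [hw])
      · rintro rfl
        exact hn.1 (by simp)
    have p4 : IsP G ((w :: s) ++ y :: (s₂.reverse ++ [z])) := by
      refine IsP.join (by simpa using h) p3 fun x hx hx' => ?_
      rw [List.mem_append, List.mem_reverse, List.mem_singleton] at hx'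
      rcases List.mem_cons.1 hx with rfl | hx
      · rcases hx' with hx' | hx'
        · exact hws.1 hx'
        · exact hws.2 hx'
      · refine hd x hx ?_
        rcases hx' with hx' | rfl
        · simp [hx']
        · simp
    have e2 : c :: (w :: (s ++ y :: s₂.reverse) ++ [z]) = c :: w :: (s ++ y :: (s₂.reverse ++ [z])) := by
      simp
    rw [e2]
    refine IsP.cons (by simpa using p4) hcw ?_
    intro hmem
    simp only [List.mem_cons, List.mem_append, List.mem_reverse,
      List.not_mem_nil, or_false] at hmem hc hc'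
    rcases hmem with h1 | h1 | h1 | h1 | h1
    · exact hc (Or.inl h1)
    · exact hc (Or.inr (Or.inl h1))
    · exact hc (Or.inr (Or.inr h1))
    · exact hc' (Or.inr (Or.inl (Or.inr (Or.inr h1))))
    · exact hc' (Or.inr (Or.inl (Or.inr (Or.inl h1))))
  have d3 : g ∣ (1 + s₁.length) + (s.length + s₂.length + 2) := Dvd.dvd.add d1 d2
  have e3 : (1 + s₁.length) + (s.length + s₂.length + 2) = (s.length + (s₁ ++ z :: s₂).length) + 2 := by
    simp; omega
  rw [e3] at d3
  exact hg ((Nat.dvd_add_right d0).1 d3)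

/-- two fans which separate at `w` have no further common vertices -/
theorem two_fans (hD : ∀ u v, G.Adj u v → ∀ a, 1 ≤ a → a ≤ N → HasC G u v a ∅ → g ∣ a)
    (hg : ¬ g ∣ 2) {c w w₁ w₁' : V} {r q r' q' : List V} (h : IsP G (w :: (r ++ w₁ :: q)))
    (h' : IsP G (w :: (r' ++ w₁' :: q'))) (hc : c ∉ w :: (r ++ w₁ :: q))
    (hc' : c ∉ w :: (r' ++ w₁' :: q')) (hcw : G.Adj c w) (hcw₁ : G.Adj c w₁)
    (hcw₁' : G.Adj c w₁') (hd : ∀ x ∈ r ++ [w₁], x ∉ r' ++ [w₁'])
    (hN : (r ++ w₁ :: q).length + (r' ++ w₁' :: q').length ≤ N) :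
    ∀ x ∈ r ++ w₁ :: q, x ∉ r' ++ w₁' :: q' := by
  classical
  intro x hx hx'
  set a := r ++ w₁ :: q with ha
  set b := r' ++ w₁' :: q' with hb
  -- the first vertex of `b` in `a`
  obtain ⟨s', y, t', hbs, hs', hya⟩ : ∃ s' y t', b = s' ++ y :: t' ∧ (∀ z ∈ s', z ∉ a) ∧ y ∈ a := by
    have h1 := List.takeWhile_append_dropWhile (p := fun z => decide (z ∉ a)) (l := b)
    cases hdrop : b.dropWhile (fun z => decide (z ∉ a)) with
    | nil =>
      rw [List.dropWhile_eq_nil_iff] at hdrop
      have := hdrop x hx'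
      simp at this
      exact absurd hx this
    | cons y t' =>
      refine ⟨b.takeWhile (fun z => decide (z ∉ a)), y, t', ?_, fun z hz => ?_, ?_⟩
      · rw [← hdrop]; exact h1.symm
      · have := List.mem_takeWhile_imp hz
        simpa using this
      · have h2 : b.dropWhile (fun z => decide (z ∉ a)) ≠ [] := by rw [hdrop]; simp
        have h3 := List.head_dropWhile_not (fun z => decide (z ∉ a)) h2
        simp only [hdrop, List.head_cons] at h3
        simpa using h3
  obtain ⟨s, t, has⟩ := List.append_of_mem hya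
  have p1 : IsP G (w :: (s ++ [y])) := by
    rw [has] at h
    have := IsP.left (l₁ := w :: (s ++ [y])) (l₂ := t) (by simpa using h)
    exact this
  have p2 : IsP G (w :: (s' ++ [y])) := by
    rw [hbs] at h'
    exact IsP.left (l₁ := w :: (s' ++ [y])) (l₂ := t') (by simpa using h')
  have hsa : ∀ z ∈ s, z ∈ a := fun z hz => by rw [has]; simp [hz]
  have hsd : ∀ z ∈ s, z ∉ s' := fun z hz hz' => hs' z hz' (hsa z hz)
  have hsd' : ∀ z ∈ s', z ∉ s := fun z hz hz' => hs' z hz (hsa z hz')
  have c1 : c ∉ w :: (s ++ [y]) := by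
    intro hm
    apply hc
    rw [has]
    simp at hm ⊢
    tauto
  have c2 : c ∉ w :: (s' ++ [y]) := by
    intro hm
    apply hc'
    rw [hbs]
    simp at hm ⊢
    tauto
  have l1 : a.length = s.length + 1 + t.length := by rw [has]; simp; omega
  have l2 : b.length = s'.length + 1 + t'.length := by rw [hbs]; simp; omega
  have hNN : s.length + s'.length + 1 ≤ N := by omega
  by_cases hA : w₁' ∈ s'
  · exact core hD hg p1 p2 hsd c1 c2 hcw hA hcw₁' hNN
  · by_cases hB : w₁ ∈ s
    · exact core hD hg p2 p1 hsd' c2 c1 hcw hB hcw₁ (by omega)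
    · have y1 : y ∈ r ++ [w₁] := mem_of_split (by rw [← ha, has]) hB
      have y2 : y ∈ r' ++ [w₁'] := mem_of_split (by rw [← hb, hbs]) hA
      exact hd y y1 y2

end

/-- one short cycle through the edge `c w`, without `c` -/
def Seg (H : SimpleGraph V) (c w : V) (L : ℕ) (X : Finset V) (F : List V × V) : Prop :=
  IsP H (w :: (F.1 ++ [F.2])) ∧ H.Adj c F.2 ∧ F.1.length + 1 ≤ L ∧ c ∉ w :: (F.1 ++ [F.2]) ∧
    ∀ x ∈ F.1 ++ [F.2], x ∉ X

theorem exists_seg {H : SimpleGraph V} {L M : ℕ}
    (hR : ∀ u v, H.Adj u v → ∀ X : Finset V, X.card ≤ M → ∃ a, (1 ≤ a ∧ a ≤ L) ∧ HasC H u v a X)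
    {c w : V} (hcw : H.Adj c w) (X : Finset V) (hX : X.card ≤ M) : ∃ F, Seg H c w L X F := by
  obtain ⟨a, ⟨ha1, haL⟩, m, hm, hp, hmX⟩ := hR c w hcw X hX
  cases m with
  | nil => simp at hm; omega
  | cons w₁ r =>
    refine ⟨(r.reverse, w₁), ?_, ?_, ?_, ?_, ?_⟩
    · have h1 : IsP H ((w₁ :: r) ++ [w]) := IsP.right (l₁ := [c]) (by simpa using hp)
      have := h1.reverse
      simpa using this
    · have := hp.1
      rw [List.cons_append, List.isChain_cons_cons] at this
      exact this.1
    · simp at hm ⊢; omega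
    · have := hp.2
      rw [List.nodup_cons] at this
      intro hmem
      apply this.1
      simp at hmem ⊢
      tauto
    · intro x hx
      refine hmX x ?_
      simp at hx ⊢
      tauto

theorem exists_segs [DecidableEq V] {H : SimpleGraph V} {L M : ℕ}
    (hR : ∀ u v, H.Adj u v → ∀ X : Finset V, X.card ≤ M → ∃ a, (1 ≤ a ∧ a ≤ L) ∧ HasC H u v a X)
    {c w : V} (hcw : H.Adj c w) (X : Finset V) (d : ℕ) (hX : X.card + d * L ≤ M) :
    ∃ F : ℕ → List V × V, (∀ i < d, Seg H c w L X (F i)) ∧
      ∀ i < d, ∀ j < d, i ≠ j → ∀ x ∈ (F i).1 ++ [(F i).2], x ∉ (F j).1 ++ [(F j).2] := by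
  induction d with
  | zero => exact ⟨fun _ => ([], w), by simp, by simp⟩
  | succ d ih =>
    obtain ⟨F, hF, hdis⟩ := ih (by rw [Nat.succ_mul] at hX; omega)
    set Y : Finset V := (Finset.range d).biUnion fun i => ((F i).1 ++ [(F i).2]).toFinset with hY
    have hYc : Y.card ≤ d * L := by
      refine Finset.card_biUnion_le.trans ?_
      calc ∑ i ∈ Finset.range d, ((F i).1 ++ [(F i).2]).toFinset.card ≤ ∑ _i ∈ Finset.range d, L := by
            refine Finset.sum_le_sum fun i hi => ?_
            refine (List.toFinset_card_le _).trans ?_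
            have := (hF i (Finset.mem_range.1 hi)).2.2.1
            simpa using this
        _ = d * L := by simp
    obtain ⟨F', hF'⟩ := exists_seg hR hcw (X ∪ Y) (by
      refine (Finset.card_union_le _ _).trans ?_
      rw [Nat.succ_mul] at hX
      omega)
    have hnew : ∀ i < d, ∀ x ∈ (F i).1 ++ [(F i).2], x ∉ F'.1 ++ [F'.2] := by
      intro i hi x hx hx'
      refine hF'.2.2.2.2 x hx' ?_
      rw [Finset.mem_union]
      right
      rw [hY, Finset.mem_biUnion]
      exact ⟨i, Finset.mem_range.2 hi, List.mem_toFinset.2 hx⟩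
    refine ⟨fun i => if i = d then F' else F i, fun i hi => ?_, fun i hi j hj hij => ?_⟩
    · by_cases hid : i = d
      · simp only [hid, if_true]
        exact ⟨hF'.1, hF'.2.1, hF'.2.2.1, hF'.2.2.2.1, fun x hx hxX =>
          hF'.2.2.2.2 x hx (Finset.mem_union_left _ hxX)⟩
      · simp only [hid, if_false]
        exact hF i (by omega)
    · by_cases hid : i = d
      · have hjd : j ≠ d := fun h => hij (hid.trans h.symm)
        simp only [hid, hjd, if_true, if_false]
        intro x hx hx'
        exact hnew j (by omega) x hx' hx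
      · by_cases hjd : j = d
        · simp only [hid, hjd, if_true, if_false]
          exact hnew i (by omega)
        · simp only [hid, hjd, if_false]
          exact hdis i (by omega) j (by omega) hij

theorem fan [DecidableEq V] {G H : SimpleGraph V} (hH : H ≤ G) {g N L M d : ℕ}
    (hD : ∀ u v, G.Adj u v → ∀ a, 1 ≤ a → a ≤ N → HasC G u v a ∅ → g ∣ a) (hg : ¬ g ∣ 2)
    (hR : ∀ u v, H.Adj u v → ∀ X : Finset V, X.card ≤ M → ∃ a, (1 ≤ a ∧ a ≤ L) ∧ HasC H u v a X)
    (c : V) : ∀ t : ℕ, 2 * (t * L) ≤ N → ∀ w, H.Adj c w → ∀ X : Finset V,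
      X.card + t * L + d * L ≤ M →
      ∃ S : Finset V, d ^ t ≤ S.card ∧ ∀ v ∈ S, H.Adj c v ∧ ∃ q : List V, IsP H (w :: q) ∧
        (w :: q).getLast? = some v ∧ q.length ≤ t * L ∧ c ∉ w :: q ∧ ∀ x ∈ q, x ∉ X := by
  classical
  intro t
  induction t with
  | zero =>
    intro _ w hw X _
    refine ⟨{w}, by simp, fun v hv => ?_⟩
    rw [Finset.mem_singleton] at hv
    subst hv
    exact ⟨hw, [], ⟨by simp, by simp⟩, by simp, by simp, by simpa using hw.ne, by simp⟩
  | succ t ih =>
    intro hN w hw X hX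
    have hs : (t + 1) * L = t * L + L := Nat.succ_mul _ _
    rw [hs] at hN hX
    obtain ⟨F, hF, hdis⟩ := exists_segs hR hw X d (by omega)
    have hI : ∀ i : ℕ, ∃ S : Finset V, i < d → (d ^ t ≤ S.card ∧ ∀ v ∈ S, H.Adj c v ∧ ∃ q : List V,
        IsP H ((F i).2 :: q) ∧ ((F i).2 :: q).getLast? = some v ∧ q.length ≤ t * L ∧
        c ∉ (F i).2 :: q ∧ ∀ x ∈ q, x ∉ X ∪ (w :: (F i).1).toFinset) := by
      intro i
      by_cases hi : i < d
      · obtain ⟨S, hS⟩ := ih (by omega) (F i).2 (hF i hi).2.1 (X ∪ (w :: (F i).1).toFinset) (by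
          have h1 : (X ∪ (w :: (F i).1).toFinset).card ≤ X.card + L := by
            refine (Finset.card_union_le _ _).trans ?_
            have h2 := List.toFinset_card_le (w :: (F i).1)
            have h3 := (hF i hi).2.2.1
            simp only [List.length_cons] at h2
            omega
          omega)
        exact ⟨S, fun _ => hS⟩
      · exact ⟨∅, fun h => absurd h hi⟩
    choose S hS using hI
    -- the long paths
    have hlong : ∀ i < d, ∀ v ∈ S i, ∃ q : List V, IsP H (w :: ((F i).1 ++ (F i).2 :: q)) ∧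
        v ∈ (F i).1 ++ (F i).2 :: q ∧ (w :: ((F i).1 ++ (F i).2 :: q)).getLast? = some v ∧
        q.length ≤ t * L ∧ c ∉ w :: ((F i).1 ++ (F i).2 :: q) ∧
        ∀ x ∈ (F i).1 ++ (F i).2 :: q, x ∉ X := by
      intro i hi v hv
      obtain ⟨-, q, hq1, hq2, hq3, hq4, hq5⟩ := (hS i hi).2 v hv
      obtain ⟨f1, f2, f3, f4, f5⟩ := hF i hi
      refine ⟨q, ?_, ?_, ?_, hq3, ?_, ?_⟩
      · have := IsP.join (l₁ := w :: (F i).1) (l₂ := q) (c := (F i).2) (by simpa using f1) hq1
          (fun x hx hxq => hq5 x hxq (Finset.mem_union_right _ (List.mem_toFinset.2 hx)))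
        simpa using this
      · have := List.mem_of_getLast? hq2
        rw [List.mem_append]
        exact Or.inr this
      · have e : w :: ((F i).1 ++ (F i).2 :: q) = (w :: (F i).1) ++ ((F i).2 :: q) := by simp
        rw [e, List.getLast?_append, hq2]
        rfl
      · intro hm
        rw [List.mem_cons, List.mem_append] at hm
        rcases hm with hm | hm | hm
        · exact f4 (by rw [hm]; simp)
        · exact f4 (by simp [hm])
        · exact hq4 hm
      · intro x hx
        rw [List.mem_append, List.mem_cons] at hx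
        rcases hx with hx | hx | hx
        · exact f5 x (by simp [hx])
        · exact f5 x (by simp [hx])
        · exact fun hxX => hq5 x hx (Finset.mem_union_left _ hxX)
    refine ⟨(Finset.range d).biUnion S, ?_, fun v hv => ?_⟩
    · rw [Finset.card_biUnion]
      · calc d ^ (t + 1) = ∑ _i ∈ Finset.range d, d ^ t := by simp [pow_succ, mul_comm]
          _ ≤ _ := Finset.sum_le_sum fun i hi => (hS i (Finset.mem_range.1 hi)).1
      · intro i hi j hj hij
        rw [Finset.mem_coe, Finset.mem_range] at hi hj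
        rw [Function.onFun, Finset.disjoint_left]
        intro v hvi hvj
        obtain ⟨q, a1, a2, -, a4, a5, -⟩ := hlong i hi v hvi
        obtain ⟨q', b1, b2, -, b4, b5, -⟩ := hlong j hj v hvj
        have fi := (hF i hi).2.2.1
        have fj := (hF j hj).2.2.1
        exact two_fans hD hg (a1.mono hH) (b1.mono hH) a5 b5 (hH hw) (hH (hF i hi).2.1)
          (hH (hF j hj).2.1) (hdis i hi j hj hij) (by
            simp only [List.length_append, List.length_cons]
            omega) v a2 b2
    · rw [Finset.mem_biUnion] at hv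
      obtain ⟨i, hi, hv⟩ := hv
      rw [Finset.mem_range] at hi
      obtain ⟨q, a1, a2, a3, a4, a5, a6⟩ := hlong i hi v hv
      have fi := (hF i hi).2.2.1
      refine ⟨((hS i hi).2 v hv).1, (F i).1 ++ (F i).2 :: q, a1, a3, ?_, a5, a6⟩
      simp only [List.length_append, List.length_cons]
      rw [hs]
      omega

end Pool.Agent.Helper87x.EC
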