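import Pool.Agent.Helper87x.EC.Main
import Pool.Agent.N721.SR.C2k

/-!
# Subgraphs of large girth: the final statements
-/

set_option autoImplicit false

namespace Pool.Agent.Helper87x.EC

open SimpleGraph

theorem darts_card {V : Type*} [Fintype V] (G : SimpleGraph V) :
    (darts G).card = 2 * Nat.card G.edgeSet := by
  classical
  have h1 : (darts G).card = ∑ v, G.degree v := by
    unfold darts
    rw [Finset.card_filter, ← Finset.univ_product_univ, Finset.sum_product]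
    refine Finset.sum_congr rfl fun v _ => ?_
    rw [← Finset.card_filter, ← G.card_neighborFinset_eq_degree v]
    congr 1
    ext w
    simp
  rw [h1, G.sum_degrees_eq_twice_card_edges, Nat.card_eq_fintype_card, ← edgeFinset_card]

theorem egirth_of {V : Type*} {G : SimpleGraph V} (L : ℕ)
    (h : ∀ u v, G.Adj u v → ∀ a, 1 ≤ a → a ≤ 2 * L → ¬ HasC G u v a ∅) :
    ((2 * (L + 1) : ℕ) : ℕ∞) < G.egirth := by
  have h1 : ((2 * (L + 1) + 1 : ℕ) : ℕ∞) ≤ G.egirth := by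
    rw [le_egirth]
    intro a w hw
    have h3 := hw.three_le_length
    by_contra hcon
    push Not at hcon
    have h4 : w.length < 2 * (L + 1) + 1 := by exact_mod_cast hcon
    obtain ⟨u, v, huv, hc⟩ := hasC_of_isCycle w hw
    exact h u v huv _ (by omega) (by omega) hc
  refine lt_of_lt_of_le ?_ h1
  exact_mod_cast Nat.lt_succ_self _

theorem colorable_of {V : Type*} {G : SimpleGraph V}
    (h : ∃ f : V → Bool, ∀ u v, G.Adj u v → f u ≠ f v) : G.Colorable 2 := by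
  obtain ⟨f, hf⟩ := h
  have := (Coloring.mk f (fun {u v} huv => hf u v huv) : G.Coloring Bool).colorable
  simpa using this

/-- the theorem for degenerate graphs -/
theorem degenerate (K t l : ℕ) (hK : 2 ≤ K) (ht : 1 ≤ t) (hl : 2 ≤ l)
    (h : 2 * t * (K - 1) * (K - 2) ≤ l - 1) :
    ∃ c : ℝ, 0 < c ∧ ∀ (V : Type) [Finite V] (G : SimpleGraph V) (D : ℝ), 1 ≤ D →
      (cycleGraph (2 * l)).Free G →
      (∀ H ≤ G, H ≠ ⊥ →
        ∃ v, 1 ≤ (H.neighborSet v).ncard ∧ ((H.neighborSet v).ncard : ℝ) ≤ D) →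
      ∃ G' ≤ G, G'.Colorable 2 ∧ ((2 * K : ℕ) : ℕ∞) < G'.egirth ∧
        c * D ^ (-(2 / (t : ℝ))) * (Nat.card G.edgeSet : ℝ) ≤ Nat.card G'.edgeSet := by
  obtain ⟨C, hC⟩ := main (K - 1) t l ht hl (by omega) (by
    have e : K - 1 - 1 = K - 2 := by omega
    rw [e]
    calc (K - 2) * (2 * (t * (K - 1))) = 2 * t * (K - 1) * (K - 2) := by ring
      _ ≤ _ := h)
  refine ⟨1 / (4 * (C + 1)), by positivity, fun V _ G D hD hG hdeg => ?_⟩
  have := Fintype.ofFinite V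
  have ht0 : (0 : ℝ) < t := by exact_mod_cast ht
  have hD0 : 0 < D := by linarith
  set x : ℝ := D ^ (1 / (t : ℝ)) with hx
  have hx1 : 1 ≤ x := Real.one_le_rpow hD (by positivity)
  have hxt : x ^ t = D := by
    rw [hx, ← Real.rpow_natCast, ← Real.rpow_mul hD0.le, one_div, inv_mul_cancel₀ ht0.ne',
      Real.rpow_one]
  set d : ℕ := ⌊x⌋₊ + 1 with hd
  have hdx : x < d := by
    rw [hd]; push_cast
    exact Nat.lt_floor_add_one x
  have hd2 : (d : ℝ) ≤ 2 * x := by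
    rw [hd]; push_cast
    have := Nat.floor_le (by linarith : 0 ≤ x)
    linarith
  have hdt : D < (d : ℝ) ^ t := by
    rw [← hxt]
    exact pow_lt_pow_left₀ hdx (by linarith) (by omega)
  obtain ⟨G', hG', hf, hcyc, hcard⟩ := hC V G hG d (by omega) (fun H hH hne => by
    obtain ⟨v, h1, h2⟩ := hdeg H hH hne
    refine ⟨v, h1, ?_⟩
    have h3 : ((H.neighborSet v).ncard : ℝ) < (d : ℝ) ^ t := lt_of_le_of_lt h2 hdt
    exact_mod_cast h3)
  refine ⟨G', hG', colorable_of hf, ?_, ?_⟩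
  · have := egirth_of _ hcyc
    have e : K - 1 + 1 = K := by omega
    rwa [e] at this
  · rw [darts_card, darts_card] at hcard
    have h1 : (Nat.card G.edgeSet : ℝ) ≤ C * d ^ 2 * Nat.card G'.edgeSet := by
      have h2 : Nat.card G.edgeSet ≤ C * d ^ 2 * Nat.card G'.edgeSet := by
        have : 2 * Nat.card G.edgeSet ≤ 2 * (C * d ^ 2 * Nat.card G'.edgeSet) := by
          refine hcard.trans (le_of_eq ?_)
          ring
        omega
      exact_mod_cast h2
    have hDx : D ^ (-(2 / (t : ℝ))) = 1 / x ^ 2 := by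
      rw [hx, ← Real.rpow_natCast, ← Real.rpow_mul hD0.le, Real.rpow_neg hD0.le, one_div]
      congr 2
      push_cast
      ring
    rw [hDx]
    have hx2 : 0 < x ^ 2 := by positivity
    have hE : (0 : ℝ) ≤ Nat.card G'.edgeSet := by positivity
    calc 1 / (4 * ((C : ℝ) + 1)) * (1 / x ^ 2) * (Nat.card G.edgeSet : ℝ)
        ≤ 1 / (4 * ((C : ℝ) + 1)) * (1 / x ^ 2) * (C * d ^ 2 * Nat.card G'.edgeSet) := by gcongr
      _ ≤ 1 / (4 * ((C : ℝ) + 1)) * (1 / x ^ 2) *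
          ((C + 1) * (2 * x) ^ 2 * Nat.card G'.edgeSet) := by
          gcongr
          linarith
      _ = Nat.card G'.edgeSet := by field_simp; ring

/-- a graph without `C_{2l}` on `n` vertices is `O(n ^ (1 / l))`-degenerate -/
theorem exists_degenerate (l : ℕ) (hl : 2 ≤ l) :
    ∃ B : ℝ, 1 ≤ B ∧ ∀ (n : ℕ) (G : SimpleGraph (Fin n)), (cycleGraph (2 * l)).Free G →
      ∀ H ≤ G, H ≠ ⊥ → ∃ v, 1 ≤ (H.neighborSet v).ncard ∧
        ((H.neighborSet v).ncard : ℝ) ≤ B * (n : ℝ) ^ (1 / (l : ℝ)) := by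
  classical
  have hP := N721.SR.c2k_her hl
  obtain ⟨C₀, hC₀, hF⟩ := N721.SR.bondy_simonovits hl hP
  refine ⟨C₀ + 1, by linarith, fun n G hG H hH hne => ?_⟩
  have hl0 : (0 : ℝ) < l := by
    have : 0 < l := by omega
    exact_mod_cast this
  set U : Finset (Fin n) := Finset.univ.filter fun v => 1 ≤ (H.neighborSet v).ncard with hU
  obtain ⟨a, b, hab⟩ := exists_adj hne
  have haU : a ∈ U := by
    rw [hU, Finset.mem_filter]
    refine ⟨Finset.mem_univ _, ?_⟩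
    have : (H.neighborSet a).ncard ≠ 0 := by
      refine (Set.ncard_pos (Set.toFinite _)).2 ?_ |>.ne'
      exact ⟨b, hab⟩
    omega
  have hUc : 1 ≤ U.card := Finset.card_pos.2 ⟨a, haU⟩
  have hU0 : (0 : ℝ) < U.card := by exact_mod_cast hUc
  have hUn : (U.card : ℝ) ≤ n := by
    have := Finset.card_le_univ U
    rw [Fintype.card_fin] at this
    exact_mod_cast this
  have hHfree : (cycleGraph (2 * l)).Free H := fun hcon => hG (hcon.trans (IsContained.of_le hH))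
  by_contra hcon
  push Not at hcon
  have h1 : N721.SR.ee H U U ≤ C₀ * (U.card : ℝ) ^ (1 + 1 / (l : ℝ)) :=
    (hP.le_F H hHfree U).trans (hF _ hUc)
  have h2 : ∀ v ∈ U, (C₀ + 1) * (n : ℝ) ^ (1 / (l : ℝ)) < ∑ w ∈ U, if H.Adj v w then (1 : ℝ) else 0 := by
    intro v hv
    rw [hU, Finset.mem_filter] at hv
    refine lt_of_lt_of_eq (hcon v hv.2) ?_
    rw [← Finset.sum_filter, Finset.sum_const, nsmul_eq_mul, mul_one]
    congr 1
    rw [← Set.ncard_coe_finset]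
    congr 1
    ext w
    simp only [mem_neighborSet, Finset.coe_filter]
    refine ⟨fun hw => ⟨?_, hw⟩, fun hw => hw.2⟩
    rw [hU, Finset.mem_filter]
    refine ⟨Finset.mem_univ _, ?_⟩
    have : (H.neighborSet w).ncard ≠ 0 := by
      refine (Set.ncard_pos (Set.toFinite _)).2 ?_ |>.ne'
      exact ⟨v, hw.symm⟩
    omega
  have h3 : (U.card : ℝ) * ((C₀ + 1) * (n : ℝ) ^ (1 / (l : ℝ))) ≤ N721.SR.ee H U U := by
    unfold N721.SR.ee
    rw [← nsmul_eq_mul]
    refine Finset.card_nsmul_le_sum _ _ _ fun v hv => ?_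
    refine (h2 v hv).le.trans (le_of_eq ?_)
    refine Finset.sum_congr rfl fun w _ => ?_
    congr
  have h4 : (U.card : ℝ) ^ (1 + 1 / (l : ℝ)) ≤ U.card * (n : ℝ) ^ (1 / (l : ℝ)) := by
    rw [Real.rpow_add hU0, Real.rpow_one]
    gcongr
  have h5 : 0 < (U.card : ℝ) * (n : ℝ) ^ (1 / (l : ℝ)) := by
    have : (0 : ℝ) < n := lt_of_lt_of_le hU0 hUn
    positivity
  nlinarith

theorem onVertices (K t l : ℕ) (hK : 2 ≤ K) (ht : 1 ≤ t) (hl : 2 ≤ l)
    (h : 2 * t * (K - 1) * (K - 2) ≤ l - 1) :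
    ∃ c : ℝ, 0 < c ∧ ∀ (n : ℕ) (G : SimpleGraph (Fin n)), (cycleGraph (2 * l)).Free G →
      ∃ G' ≤ G, G'.Colorable 2 ∧ ((2 * K : ℕ) : ℕ∞) < G'.egirth ∧
        c * (n : ℝ) ^ (-(2 / ((t : ℝ) * l))) * (Nat.card G.edgeSet : ℝ) ≤
          Nat.card G'.edgeSet := by
  obtain ⟨c, hc, hdeg⟩ := degenerate K t l hK ht hl h
  obtain ⟨B, hB, hBn⟩ := exists_degenerate l hl
  have ht0 : (0 : ℝ) < t := by exact_mod_cast ht
  have hl0 : (0 : ℝ) < l := by
    have : 0 < l := by omega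
    exact_mod_cast this
  refine ⟨c * B ^ (-(2 / (t : ℝ))), by positivity, fun n G hG => ?_⟩
  rcases Nat.eq_zero_or_pos n with rfl | hn
  · refine ⟨⊥, bot_le, (colorable_of ⟨fun _ => true, by simp⟩), ?_, ?_⟩
    · rw [egirth_bot]
      exact ENat.coe_lt_top _
    have : Nat.card G.edgeSet = 0 := by
      have : G = ⊥ := by
        ext u
        exact u.elim0
      rw [this]
      simp
    rw [this]
    simp
  have hn1 : (1 : ℝ) ≤ n := by exact_mod_cast hn
  have hn0 : (0 : ℝ) < n := by linarith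
  have hr : 1 ≤ (n : ℝ) ^ (1 / (l : ℝ)) := Real.one_le_rpow hn1 (by positivity)
  obtain ⟨G', h1, h2, h3, h4⟩ := hdeg (Fin n) G (B * (n : ℝ) ^ (1 / (l : ℝ)))
    (by nlinarith) hG (hBn n G hG)
  refine ⟨G', h1, h2, h3, le_trans (le_of_eq ?_) h4⟩
  rw [Real.mul_rpow (by linarith) (by positivity), ← Real.rpow_mul hn0.le]
  have e : 1 / (l : ℝ) * -(2 / (t : ℝ)) = -(2 / ((t : ℝ) * l)) := by
    field_simp
  rw [e]
  ring

theorem conditional (K t l : ℕ) (hK : 2 ≤ K) (ht : 1 ≤ t) (hl : 2 ≤ l)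
    (h : 2 * t * (K - 1) * (K - 2) ≤ l - 1)
    (hex : ∃ c : ℝ, 0 < c ∧ ∃ N : ℕ, ∀ n : ℕ, N ≤ n → c * (n : ℝ) ^ ((1 : ℝ) + 1 / (l : ℝ)) ≤
        ((extremalNumber n (cycleGraph (2 * l)) : ℕ) : ℝ)) :
    ∃ c : ℝ, 0 < c ∧ ∃ N : ℕ, ∀ n : ℕ, N ≤ n → ∃ G : SimpleGraph (Fin n),
      (cycleGraph (2 * l)).Free G ∧ G.Colorable 2 ∧ ((2 * K : ℕ) : ℕ∞) < G.egirth ∧
      c * (n : ℝ) ^ ((1 : ℝ) + 1 / (l : ℝ) - 2 / ((t : ℝ) * l)) ≤ Nat.card G.edgeSet := by
  classical
  obtain ⟨c₁, hc₁, N, hN⟩ := hex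
  obtain ⟨c, hc, hG⟩ := onVertices K t l hK ht hl h
  refine ⟨c * c₁, by positivity, N + 1, fun n hn => ?_⟩
  have hn0 : (0 : ℝ) < n := by
    have : 0 < n := by omega
    exact_mod_cast this
  have h1 := hN n (by omega)
  obtain ⟨G, hGfree, hGcard⟩ : ∃ G : SimpleGraph (Fin n), (cycleGraph (2 * l)).Free G ∧
      extremalNumber n (cycleGraph (2 * l)) ≤ Nat.card G.edgeSet := by
    by_contra hcon
    have hcon' : ∀ G : SimpleGraph (Fin n), (cycleGraph (2 * l)).Free G →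
        Nat.card G.edgeSet < extremalNumber n (cycleGraph (2 * l)) := by
      intro G hG
      by_contra h5
      exact hcon ⟨G, hG, not_lt.1 h5⟩
    have h2 : extremalNumber n (cycleGraph (2 * l)) ≤ extremalNumber n (cycleGraph (2 * l)) - 1 := by
      conv_lhs => rw [← Fintype.card_fin n]
      rw [extremalNumber_le_iff]
      intro G _ hfree
      have := hcon' G hfree
      rw [Nat.card_eq_fintype_card, ← edgeFinset_card] at this
      omega
    have h4 := hcon' ⊥ (by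
      intro hcon2
      obtain ⟨f⟩ := hcon2
      have hadj := N721.SR.cycleGraph_adj01 (2 * l) (by omega)
      exact f.toHom.map_adj hadj)
    omega
  obtain ⟨G', h2, h3, h4, h5⟩ := hG n G hGfree
  refine ⟨G', fun hcon => hGfree (hcon.trans (IsContained.of_le h2)), h3, h4, le_trans ?_ h5⟩
  calc c * c₁ * (n : ℝ) ^ ((1 : ℝ) + 1 / (l : ℝ) - 2 / ((t : ℝ) * l))
      = c * (n : ℝ) ^ (-(2 / ((t : ℝ) * l))) * (c₁ * (n : ℝ) ^ ((1 : ℝ) + 1 / (l : ℝ))) := by
        rw [sub_eq_add_neg, Real.rpow_add hn0]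
        ring
    _ ≤ c * (n : ℝ) ^ (-(2 / ((t : ℝ) * l))) * (Nat.card G.edgeSet : ℝ) := by
        refine mul_le_mul_of_nonneg_left (h1.trans ?_) (by positivity)
        exact_mod_cast hGcard

end Pool.Agent.Helper87x.EC
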