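import Pool.Agent.Helper87x.EC.Count

/-!
# Gluing cycles, and sums of elements of a set of numbers
-/

set_option autoImplicit false

namespace Pool.Agent.Helper87x.EC

open SimpleGraph

/-- the numbers divisible by the gcd of `S` from `(a₀ - 1) N` on are sums of elements of `S`, if
`a₀ ∈ S` and all elements are at most `N` -/
theorem exists_sum (S : Finset ℕ) (a₀ N : ℕ) (ha₀ : a₀ ∈ S) (hpos : 0 < a₀) (hN : ∀ a ∈ S, a ≤ N)
    (x : ℕ) (hx : Nat.setGcd (S : Set ℕ) ∣ x) (hxN : (a₀ - 1) * N ≤ x) :
    ∃ as : List ℕ, (∀ a ∈ as, a ∈ S) ∧ as.sum = x := by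
  classical
  obtain ⟨n, hn⟩ := Nat.exists_mem_closure_of_ge (s := (S : Set ℕ))
  -- some list with the right residue
  have hex : ∃ k : ℕ, ∃ as : List ℕ, as.length = k ∧ (∀ a ∈ as, a ∈ S) ∧ as.sum % a₀ = x % a₀ := by
    have h1 := hn (x + a₀ * n) (by
      have := Nat.le_mul_of_pos_left n hpos
      show n ≤ x + a₀ * n
      omega) (by
      refine Dvd.dvd.add hx (Dvd.dvd.mul_right ?_ _)
      exact Nat.setGcd_dvd_of_mem (by exact_mod_cast ha₀))
    obtain ⟨as, h2, h3⟩ := AddSubmonoid.exists_list_of_mem_closure h1
    exact ⟨as.length, as, rfl, fun a ha => by exact_mod_cast h2 a ha, by rw [h3]; simp⟩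
  set k := Nat.find hex with hk
  obtain ⟨as, hlen, hS, hmod⟩ := Nat.find_spec hex
  -- a shortest one has fewer than `a₀` elements
  have hshort : as.length < a₀ := by
    by_contra hge
    push Not at hge
    obtain ⟨i, hi, j, hj, hij, heq⟩ := Finset.exists_ne_map_eq_of_card_lt_of_maps_to
      (s := Finset.range (a₀ + 1)) (t := Finset.range a₀) (by simp)
      (f := fun i => (as.take i).sum % a₀) (fun i _ => by
        simp only [Finset.coe_range, Set.mem_Iio]
        exact Nat.mod_lt _ hpos)
    wlog hlt : i < j generalizing i j with H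
    · exact H j hj i hi hij.symm heq.symm (by omega)
    rw [Finset.mem_range] at hi hj
    set bs := as.take i ++ as.drop j with hbs
    have hbl : bs.length < k := by
      rw [hbs, List.length_append, List.length_take, List.length_drop, hk, ← hlen]
      omega
    have h1 : as.sum = (as.take j).sum + (as.drop j).sum := by
      rw [← List.sum_append, List.take_append_drop]
    have h2 : bs.sum % a₀ = x % a₀ := by
      rw [← hmod, h1, hbs, List.sum_append, Nat.add_mod, heq, ← Nat.add_mod]
    refine Nat.find_min hex hbl ⟨bs, rfl, fun a ha => ?_, h2⟩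
    rw [hbs, List.mem_append] at ha
    rcases ha with ha | ha
    · exact hS a (List.mem_of_mem_take ha)
    · exact hS a (List.mem_of_mem_drop ha)
  have hsum : as.sum ≤ as.length * N := by
    have := List.sum_le_card_nsmul as N (fun a ha => hN a (hS a ha))
    simpa using this
  have hle : as.sum ≤ x := by
    refine (hsum.trans ?_).trans hxN
    exact Nat.mul_le_mul_right N (by omega)
  obtain ⟨c, hc⟩ : a₀ ∣ x - as.sum := by
    rw [← Nat.modEq_iff_dvd' hle]
    exact hmod
  refine ⟨List.replicate c a₀ ++ as, fun a ha => ?_, ?_⟩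
  · rw [List.mem_append] at ha
    rcases ha with ha | ha
    · rw [List.eq_of_mem_replicate ha]; exact ha₀
    · exact hS a ha
  · rw [List.sum_append, List.sum_replicate, smul_eq_mul, mul_comm, ← hc]
    omega

variable {V : Type*}

/-- gluing cycles along edges -/
theorem glue (H : SimpleGraph V) (S : Finset ℕ) (M : ℕ)
    (hR : ∀ u v, H.Adj u v → ∀ a ∈ S, ∀ X : Finset V, X.card ≤ M → HasC H u v a X) :
    ∀ as : List ℕ, (∀ a ∈ as, a ∈ S) → as.sum + 1 ≤ M → ∀ u v, H.Adj u v →
      HasC H u v as.sum ∅ := by
  classical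
  intro as
  induction as with
  | nil =>
    intro _ _ u v huv
    exact ⟨[], rfl, ⟨by simpa using huv, by simpa using huv.ne⟩, by simp⟩
  | cons a as ih =>
    intro hS hM u v huv
    rw [List.sum_cons] at hM ⊢
    obtain ⟨m, hm, hp, -⟩ := ih (fun b hb => hS b (List.mem_cons_of_mem _ hb)) (by omega) u v huv
    obtain ⟨y, r, hyr⟩ : ∃ y r, m ++ [v] = y :: r := by
      cases m with
      | nil => exact ⟨v, [], rfl⟩
      | cons y r => exact ⟨y, r ++ [v], rfl⟩
    have huy : H.Adj u y := by
      have := hp.1
      rw [hyr, List.isChain_cons_cons] at this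
      exact this.1
    have hcard : (m ++ [v]).toFinset.card ≤ M := by
      refine (List.toFinset_card_le _).trans ?_
      rw [List.length_append, hm]
      simp
      omega
    obtain ⟨m', hm', hp', hX⟩ := hR u y huy a (hS a (List.mem_cons_self ..)) _ hcard
    have hj : IsP H ((u :: m') ++ y :: r) := by
      refine IsP.join (by simpa using hp') ?_ ?_
      · rw [← hyr]
        exact IsP.right (l₁ := [u]) (by simpa using hp)
      · intro x hx hxr
        have hnd := hp.2
        rw [hyr] at hnd
        rcases List.mem_cons.1 hx with rfl | hx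
        · rw [List.nodup_cons] at hnd
          exact hnd.1 (List.mem_cons_of_mem _ hxr)
        · refine hX x hx ?_
          rw [List.mem_toFinset, hyr]
          exact List.mem_cons_of_mem _ hxr
    refine ⟨m' ++ m, by rw [List.length_append, hm, hm'], ?_, by simp⟩
    have e : u :: (m' ++ m ++ [v]) = (u :: m') ++ y :: r := by
      rw [← hyr]; simp
    rw [e]; exact hj

end Pool.Agent.Helper87x.EC
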