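import Pool.Agent.Helper87x.EC.Bip

/-!
# Subgraphs of large girth in graphs without a cycle of length `2 l`
-/

set_option autoImplicit false

namespace Pool.Agent.Helper87x.EC

open SimpleGraph

universe u

variable {V : Type*}

theorem exists_adj {H : SimpleGraph V} (h : H ≠ ⊥) : ∃ u v, H.Adj u v := by
  by_contra hcon
  push Not at hcon
  apply h
  ext u v
  simp [hcon u v]

/-- **Main theorem.** -/
theorem main (L t l : ℕ) (ht : 1 ≤ t) (hl : 2 ≤ l) (hL : 1 ≤ L)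
    (h : (L - 1) * (2 * (t * L)) ≤ l - 1) :
    ∃ C : ℕ, ∀ (V : Type u) [Fintype V] (G : SimpleGraph V), (cycleGraph (2 * l)).Free G →
      ∀ d : ℕ, 1 ≤ d → (∀ H ≤ G, H ≠ ⊥ →
        ∃ v, 1 ≤ (H.neighborSet v).ncard ∧ (H.neighborSet v).ncard < d ^ t) →
        ∃ G' ≤ G, (∃ f : V → Bool, ∀ u v, G'.Adj u v → f u ≠ f v) ∧
          (∀ u v, G'.Adj u v → ∀ a, 1 ≤ a → a ≤ 2 * L → ¬ HasC G' u v a ∅) ∧
          (darts G).card ≤ C * d ^ 2 * (darts G').card := by
  classical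
  set N := 2 * (t * L) with hN
  set M₀ := 2 * l with hM₀
  set C₀ := 2 * (2 * M₀ + 1) ^ 2 * (N + 1) with hC₀
  have hC₀1 : 1 ≤ C₀ := by
    rw [hC₀]
    have : 0 < 2 * (2 * M₀ + 1) ^ 2 * (N + 1) := by positivity
    omega
  set C₁ := 2 * (2 * ((t + 1) * (2 * L)) + 1) ^ 2 with hC₁
  have hC₁1 : 1 ≤ C₁ := by
    rw [hC₁]
    have : 0 < 2 * (2 * ((t + 1) * (2 * L)) + 1) ^ 2 := by positivity
    omega
  refine ⟨2 * (C₀ ^ N * C₁), fun V _ G hG d hd1 hdeg => ?_⟩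
  have hd2 : 1 ≤ d ^ 2 := Nat.one_le_pow _ _ hd1
  -- a bipartite subgraph
  obtain ⟨G₀, hG₀, f, hf, hc0⟩ := exists_bip G
  -- a maximal set of lengths that can be removed
  let Rem : Finset ℕ → Prop := fun R => ∃ G₁ ≤ G₀,
    (∀ j ∈ R, ∀ u v, G₁.Adj u v → ¬ HasC G₁ u v (2 * j) ∅) ∧
    (darts G₀).card ≤ C₀ ^ R.card * (darts G₁).card
  have hRem0 : Rem ∅ := ⟨G₀, le_rfl, by simp, by simp⟩
  obtain ⟨R, hRmem, hRmax⟩ := Finset.exists_max_image
    ((Finset.Icc 1 N).powerset.filter fun R => Rem R) Finset.card ⟨∅, by simp [hRem0]⟩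
  rw [Finset.mem_filter, Finset.mem_powerset] at hRmem
  obtain ⟨hRJ, G₁, hG₁, hfree, hcard⟩ := hRmem
  have hRN : R.card ≤ N := by
    have := Finset.card_le_card hRJ
    simpa using this
  have hcard' : (darts G).card ≤ 2 * (C₀ ^ N * (darts G₁).card) :=
    hc0.trans (Nat.mul_le_mul_left 2
      (hcard.trans (Nat.mul_le_mul_right _ (Nat.pow_le_pow_right hC₀1 hRN))))
  have hf₁ : ∀ u v, G₁.Adj u v → f u ≠ f v := fun u v huv => hf u v (hG₁ huv)
  by_cases hall : ∀ j, 1 ≤ j → j ≤ L → j ∈ R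
  · refine ⟨G₁, hG₁.trans hG₀, ⟨f, hf₁⟩, fun u v huv a h1 h2 hc => ?_, hcard'.trans ?_⟩
    · obtain ⟨j, rfl⟩ := even_of_bip hf₁ huv hc
      exact hfree j (hall j (by omega) (by omega)) u v huv hc
    calc 2 * (C₀ ^ N * (darts G₁).card) = 2 * (C₀ ^ N * 1) * 1 * (darts G₁).card := by ring
      _ ≤ 2 * (C₀ ^ N * C₁) * d ^ 2 * (darts G₁).card := by gcongr
  push Not at hall
  obtain ⟨j₀, hj₀1, hj₀L, hj₀R⟩ := hall
  set S := Finset.Icc 1 N \ R with hS
  have hLN : L ≤ N := by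
    rw [hN]
    have := Nat.le_mul_of_pos_left L ht
    omega
  have hj₀S : j₀ ∈ S := by
    rw [hS, Finset.mem_sdiff, Finset.mem_Icc]
    exact ⟨⟨hj₀1, hj₀L.trans hLN⟩, hj₀R⟩
  set T : Finset (Finset ℕ) := S.image fun j => {2 * j} with hT
  have hTne : T.Nonempty := ⟨{2 * j₀}, Finset.mem_image.2 ⟨j₀, hj₀S, rfl⟩⟩
  have hTcard : T.card ≤ N + 1 := by
    refine Finset.card_image_le.trans ?_
    refine (Finset.card_le_card Finset.sdiff_subset).trans ?_
    simp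
  -- a robust subgraph
  obtain ⟨H, hH, hHne, hrob⟩ : ∃ H ≤ G₁, H ≠ ⊥ ∧ Robust H T M₀ := by
    by_contra hcon
    push Not at hcon
    obtain ⟨A, hA, G₂, hG₂, hA2, hc2⟩ := clean T hTne M₀ G₁ (fun H h1 h2 => hcon H h1 h2)
    rw [hT, Finset.mem_image] at hA
    obtain ⟨j, hjS, rfl⟩ := hA
    rw [hS, Finset.mem_sdiff] at hjS
    have hmem : insert j R ∈ ((Finset.Icc 1 N).powerset.filter fun R => Rem R) := by
      rw [Finset.mem_filter, Finset.mem_powerset]
      refine ⟨Finset.insert_subset hjS.1 hRJ, G₂, hG₂.trans hG₁, fun b hb u v huv hc => ?_, ?_⟩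
      · rcases Finset.mem_insert.1 hb with rfl | hb
        · exact hA2 u v huv (2 * b) (by simp) hc
        · exact hfree b hb u v (hG₂ huv) (hc.mono hG₂ (Finset.Subset.refl _))
      · rw [Finset.card_insert_of_notMem hjS.2, pow_succ]
        calc (darts G₀).card ≤ C₀ ^ R.card * (darts G₁).card := hcard
          _ ≤ C₀ ^ R.card * (2 * (2 * M₀ + 1) ^ 2 * T.card * (darts G₂).card) := by gcongr
          _ ≤ C₀ ^ R.card * (2 * (2 * M₀ + 1) ^ 2 * (N + 1) * (darts G₂).card) := by gcongr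
          _ = C₀ ^ R.card * C₀ * (darts G₂).card := by rw [hC₀]; ring
    have := hRmax _ hmem
    rw [Finset.card_insert_of_notMem hjS.2] at this
    omega
  set g := Nat.setGcd (S : Set ℕ) with hg
  have hSN : ∀ j ∈ S, j ≤ N := fun j hj => by
    rw [hS, Finset.mem_sdiff, Finset.mem_Icc] at hj
    exact hj.1.2
  -- twice the gcd does not divide two
  have hg2 : ¬ 2 * g ∣ 2 := by
    intro hdvd
    have hx : g ∣ l - 1 := by
      have h1 : g ∣ 1 := Nat.dvd_of_mul_dvd_mul_left (k := 2) (by norm_num) (by simpa using hdvd)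
      exact h1.trans (one_dvd _)
    obtain ⟨as, has, hsum⟩ := exists_sum S j₀ N hj₀S (by omega) hSN (l - 1) hx
      ((Nat.mul_le_mul_right N (by omega)).trans h)
    obtain ⟨u, v, huv⟩ := exists_adj hHne
    have hsum2 : (as.map fun j => 2 * j).sum = 2 * l - 2 := by
      rw [List.sum_map_mul_left, List.map_id', hsum]
      omega
    have hC := glue H (S.image fun j => 2 * j) M₀ (fun u v huv a ha X hX => by
      obtain ⟨j, hj, rfl⟩ := Finset.mem_image.1 ha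
      obtain ⟨b, hb, hc⟩ := hrob u v huv {2 * j} (Finset.mem_image.2 ⟨j, hj, rfl⟩) X hX
      rw [Finset.mem_singleton] at hb
      rwa [hb] at hc) (as.map fun j => 2 * j) (fun a ha => by
        obtain ⟨j, hj, rfl⟩ := List.mem_map.1 ha
        exact Finset.mem_image.2 ⟨j, has j hj, rfl⟩) (by rw [hsum2]; omega) u v huv
    rw [hsum2] at hC
    have hcon := isContained_of_hasC huv (by omega) hC
    have e : 2 * l - 2 + 2 = 2 * l := by omega
    rw [e] at hcon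
    exact hG (hcon.trans (IsContained.of_le ((hH.trans hG₁).trans hG₀)))
  have hD : ∀ u v, G₁.Adj u v → ∀ a, 1 ≤ a → a ≤ 2 * N → HasC G₁ u v a ∅ → 2 * g ∣ a := by
    intro u v huv a h1 h2 hc
    obtain ⟨j, rfl⟩ := even_of_bip hf₁ huv hc
    by_cases hjR : j ∈ R
    · exact absurd hc (hfree j hjR u v huv)
    · refine Nat.mul_dvd_mul_left 2 (Nat.setGcd_dvd_of_mem ?_)
      rw [Finset.mem_coe, hS, Finset.mem_sdiff, Finset.mem_Icc]
      exact ⟨⟨by omega, by omega⟩, hjR⟩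
  -- the second cleaning
  set M := t * (2 * L) + d * (2 * L) with hM
  have hclean : ∀ H ≤ G₁, H ≠ ⊥ → ¬ Robust H {Finset.Icc 1 (2 * L)} M := by
    intro H' hH' hne hrob'
    obtain ⟨c, hc1, hc2⟩ := hdeg H' ((hH'.trans hG₁).trans hG₀) hne
    obtain ⟨w, hcw⟩ := Set.nonempty_of_ncard_ne_zero (s := H'.neighborSet c) (by omega)
    obtain ⟨Q, hQ, hQn⟩ := fan (G := G₁) (H := H') hH' hD hg2 (L := 2 * L) (M := M) (d := d)
      (fun u v huv X hX => by
        obtain ⟨a, ha, hc⟩ := hrob' u v huv (Finset.Icc 1 (2 * L)) (by simp) X hX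
        exact ⟨a, Finset.mem_Icc.1 ha, hc⟩) c t
        (le_of_eq (by rw [hN]; ring)) w hcw ∅ (by simp [hM])
    have h1 : (Q : Set V) ⊆ H'.neighborSet c := fun v hv => (hQn v (by exact_mod_cast hv)).1
    have h2 := Set.ncard_le_ncard h1 (Set.toFinite _)
    rw [Set.ncard_coe_finset] at h2
    omega
  obtain ⟨A, hA, G₂, hG₂, hA2, hc2⟩ := clean {Finset.Icc 1 (2 * L)} (by simp) M G₁ hclean
  rw [Finset.mem_singleton] at hA
  subst hA
  refine ⟨G₂, (hG₂.trans hG₁).trans hG₀, ⟨f, fun u v huv => hf₁ u v (hG₂ huv)⟩,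
    fun u v huv a h1 h2 => hA2 u v huv a (Finset.mem_Icc.2 ⟨h1, h2⟩), ?_⟩
  have hM2 : 2 * M + 1 ≤ (2 * ((t + 1) * (2 * L)) + 1) * d := by
    have h1 : M ≤ (t + 1) * (2 * L) * d := by
      rw [hM]
      calc t * (2 * L) + d * (2 * L) ≤ t * (2 * L) * d + d * (2 * L) := by
            have := Nat.le_mul_of_pos_right (t * (2 * L)) hd1
            omega
        _ = (t + 1) * (2 * L) * d := by ring
    calc 2 * M + 1 ≤ 2 * ((t + 1) * (2 * L) * d) + d := by omega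
      _ = _ := by ring
  calc (darts G).card ≤ 2 * (C₀ ^ N * (darts G₁).card) := hcard'
    _ ≤ 2 * (C₀ ^ N * (2 * (2 * M + 1) ^ 2 * (1 : ℕ) * (darts G₂).card)) := by
        refine Nat.mul_le_mul_left _ (Nat.mul_le_mul_left _ (hc2.trans (le_of_eq ?_)))
        simp
    _ ≤ 2 * (C₀ ^ N * (2 * ((2 * ((t + 1) * (2 * L)) + 1) * d) ^ 2 * (1 : ℕ) *
          (darts G₂).card)) := by gcongr
    _ = 2 * (C₀ ^ N * C₁) * d ^ 2 * (darts G₂).card := by rw [hC₁]; ring

end Pool.Agent.Helper87x.EC
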